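import Pool.Agent.H14.Gmrf

set_option autoImplicit false

namespace Pool.Agent.Results.MP_e7c87c_co.Counter

open Matrix Pool.Agent.H14.Gmrf

abbrev W := Fin 3000 ⊕ Fin 3000 ⊕ Fin 300

def ty : W → Fin 3 := Sum.elim (fun _ => 0) (Sum.elim (fun _ => 1) (fun _ => 2))

def pp : Fin 3 → Fin 5 := ![0, 1, 3]

def core : List (Fin 5 × Fin 5) := [(0, 1), (0, 4), (1, 4), (2, 4), (0, 3), (1, 3)]

def G : SimpleGraph (Fin 5 ⊕ W) where
  Adj
    | Sum.inl i, Sum.inl j => (i, j) ∈ core ∨ (j, i) ∈ core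
    | Sum.inl i, Sum.inr w => i = 2 ∨ i = pp (ty w)
    | Sum.inr w, Sum.inl i => i = 2 ∨ i = pp (ty w)
    | Sum.inr _, Sum.inr _ => False
  symm := ⟨by
    rintro (i | w) (j | w') h
    · exact h.symm
    · exact h
    · exact h
    · exact h⟩
  loopless := ⟨by
    rintro (i | w) h
    · revert i; decide
    · exact h⟩

noncomputable def Sg : Matrix (Fin 5) (Fin 5) ℝ := !![1, 2 / 5, 519219 / 625000, 2 / 5, 2 / 5; 2 / 5, 1, 519219 / 625000, 2 / 5, 2 / 5; 519219 / 625000, 519219 / 625000, 1, 5606861 / 10000000, 2 / 5; 2 / 5, 2 / 5, 5606861 / 10000000, 1, -1138681 / 5000000; 2 / 5, 2 / 5, 2 / 5, -1138681 / 5000000, 1]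
noncomputable def Cm : Matrix (Fin 5) (Fin 5) ℝ := !![50723859 / 5000000, 99805569 / 10000000, -312500000000000000000 / 18267239475414549833, 2671287 / 2000000, -4516437 / 5000000; 0, 9089663 / 5000000, -15093281250000000000000000 / 9767238280695002545804487, 1206497 / 10000000, -101993 / 1250000; 0, 0, 15926239 / 10000000, -187957156296379283505515254468750000000000000000 / 170682956663605947027099040018988475561604931867, -8918519 / 10000000; 0, 0, 0, 10232249 / 10000000, 1572001174291168148361505880946220976161452246177650604076193 / 8732352563191126439310435625676274050383782512455894415000000; 0, 0, 0, 0, 5040939 / 5000000]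
noncomputable def Lm : Matrix (Fin 5) (Fin 5) ℝ := !![1, 0, 0, 0, 0; 2 / 5, 1, 0, 0, 0; 519219 / 625000, 519219 / 875000, 1, 0, 0; 2 / 5, 2 / 7, 94031421875 / 15396520156, 1, 0; 2 / 5, 2 / 7, -20429750000 / 3849130039, -375876508472 / 37932851033515625, 1]
noncomputable def dl : Fin 5 → ℝ := ![1, 21 / 25, 3849130039 / 273437500000, 485540493229 / 1970754579968, 8887470945230095074321 / 23708031895947265625000]
noncomputable def be : Fin 3 → ℝ := ![250000 / 1144219, 250000 / 1144219, 4000000 / 15606861]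
noncomputable def dd : Fin 3 → ℝ := ![944219 / 1144219, 944219 / 1144219, 12406861 / 15606861]
noncomputable def Br : Fin 3 → Fin 5 → ℝ := fun k i => if i = 2 ∨ i = pp k then be k else 0
noncomputable def B : Matrix W (Fin 5) ℝ := Matrix.of fun w i => Br (ty w) i
noncomputable def D : Matrix W W ℝ := diagonal fun w => dd (ty w)
noncomputable def Di : Matrix W W ℝ := diagonal fun w => (dd (ty w))⁻¹
noncomputable def Ga : Matrix W W ℝ := diagonal fun w => Real.sqrt (dd (ty w))⁻¹
noncomputable def M0 : Matrix (Fin 5 ⊕ W) (Fin 5 ⊕ W) ℝ :=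
  fromBlocks Sg (Sg * Bᵀ) (B * Sg) (B * Sg * Bᵀ + D)
noncomputable def F : Matrix (Fin 5 ⊕ W) (Fin 5 ⊕ W) ℝ := fromBlocks Cm 0 (-(Ga * B)) Ga

theorem dd_pos (k : Fin 3) : 0 < dd k := by fin_cases k <;> simp [dd]

theorem ldl : Sg = Lm * diagonal dl * Lmᵀ := by
  ext i j
  rw [Matrix.mul_apply]
  simp only [mul_diagonal, transpose_apply, Fin.sum_univ_five]
  fin_cases i <;> fin_cases j <;> simp [Sg, Lm, dl] <;> norm_num

theorem Sg_symm : Sgᵀ = Sg := by
  ext i j
  fin_cases i <;> fin_cases j <;> simp [Sg]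

theorem Sg_psd : Sg.PosSemidef := by
  rw [ldl]
  have : (diagonal dl).PosSemidef := PosSemidef.diagonal (by
    intro i; fin_cases i <;> simp [dl] <;> norm_num)
  simpa using this.mul_mul_conjTranspose_same Lm

theorem detL : Lm.det = 1 := by
  rw [det_of_isLowerTriangular Lm (by
    intro i j h
    have h : i < j := h
    fin_cases i <;> fin_cases j <;> first | (exact absurd h (by decide)) | simp [Lm])]
  simp [Lm, Fin.prod_univ_five]

theorem detC : Cm.det = (50723859 / 5000000) * (9089663 / 5000000) * (15926239 / 10000000) * (10232249 / 10000000) * (5040939 / 5000000) := by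
  rw [det_of_isUpperTriangular (M := Cm) (by
    intro i j h; fin_cases i <;> fin_cases j <;> simp [Cm] at h ⊢)]
  simp [Cm, Fin.prod_univ_five]

theorem GaGa : Ga * Ga = Di := by
  rw [Ga, Di, diagonal_mul_diagonal]
  congr 1
  funext w
  exact Real.mul_self_sqrt (inv_nonneg.mpr (dd_pos _).le)

theorem GaD : Ga * D * Ga = 1 := by
  rw [Ga, D, diagonal_mul_diagonal, diagonal_mul_diagonal, ← diagonal_one]
  congr 1
  funext w
  have := Real.mul_self_sqrt (inv_nonneg.mpr (dd_pos (ty w)).le)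
  have h2 := inv_mul_cancel₀ (dd_pos (ty w)).ne'
  calc _ = (Real.sqrt (dd (ty w))⁻¹ * Real.sqrt (dd (ty w))⁻¹) * dd (ty w) := by ring
    _ = 1 := by rw [this, h2]

theorem GaT : Gaᵀ = Ga := by rw [Ga, diagonal_transpose]

theorem conj : F * M0 * Fᵀ = fromBlocks (Cm * Sg * Cmᵀ) 0 0 1 := by
  rw [F, M0, fromBlocks_transpose, fromBlocks_multiply, fromBlocks_multiply]
  have := GaD
  rw [fromBlocks_inj]
  refine ⟨?_, ?_, ?_, ?_⟩
  · simp
  · simp [GaT, Matrix.mul_assoc]
  · simp [Matrix.mul_assoc]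
  · simp [GaT, Matrix.mul_assoc, Matrix.mul_add, Matrix.add_mul] at this ⊢
    exact this

theorem KK : Fᵀ * F = fromBlocks (Cmᵀ * Cm + Bᵀ * Di * B) (-(Bᵀ * Di)) (-(Di * B)) Di := by
  rw [F, fromBlocks_transpose, fromBlocks_multiply, ← GaGa, fromBlocks_inj]
  refine ⟨?_, ?_, ?_, ?_⟩ <;> simp [GaT, Matrix.mul_assoc]

theorem det_conj : 1 < (F * M0 * Fᵀ).det := by
  rw [conj, det_fromBlocks_zero₂₁, det_one, det_mul, det_mul, det_transpose, detC, ldl, det_mul,
    det_mul, det_transpose, detL, det_diagonal]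
  simp [dl, Fin.prod_univ_five]
  norm_num

theorem tr_conj : ((Fᵀ * F) * M0).trace ≤ Fintype.card (Fin 5 ⊕ W) + 1138681 / 100000000 := by
  have h4 : (F * M0 * Fᵀ).trace = ((Fᵀ * F) * M0).trace := by
    rw [trace_mul_comm, Matrix.mul_assoc]
  rw [← h4, conj, trace, Fintype.sum_sum_type]
  simp only [diag_apply, fromBlocks_apply₁₁, fromBlocks_apply₂₂, Matrix.mul_apply,
    Fin.sum_univ_five, transpose_apply]
  simp [Cm, Sg]
  norm_num

theorem sumW (g : Fin 3 → ℝ) : ∑ w : W, g (ty w) = 3000 * g 0 + 3000 * g 1 + 300 * g 2 := by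
  simp [ty, Fintype.sum_sum_type, add_assoc]

theorem BDB (i j : Fin 5) : (Bᵀ * Di * B) i j =
    3000 * (Br 0 i * (dd 0)⁻¹ * Br 0 j) + 3000 * (Br 1 i * (dd 1)⁻¹ * Br 1 j) +
      300 * (Br 2 i * (dd 2)⁻¹ * Br 2 j) := by
  rw [← sumW (fun k => Br k i * (dd k)⁻¹ * Br k j), Matrix.mul_apply]
  simp [Di, B]

theorem BS (w : W) (i : Fin 5) (h : i = 2 ∨ i = pp (ty w)) : (B * Sg) w i = 2 / 5 := by
  rw [Matrix.mul_apply]
  simp only [B, of_apply]
  generalize ty w = k at h ⊢
  fin_cases k <;> rcases h with rfl | rfl <;>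
    simp [Br, pp, be, Sg, Fin.sum_univ_five] <;> norm_num

theorem BSB (w : W) : (B * Sg * Bᵀ + D) w w = 1 := by
  simp only [Matrix.add_apply, Matrix.mul_apply, B, D, of_apply, transpose_apply, diagonal_apply_eq]
  generalize ty w = k
  fin_cases k <;> simp [Br, pp, be, dd, Sg, Fin.sum_univ_five] <;> norm_num

theorem M0_feas : M0 ∈ feas G (2 / 5) := by
  refine ⟨?_, ?_, ?_⟩
  · have hp : M0.PosSemidef := by
      have e : M0 = fromRows 1 B * Sg * (fromRows 1 B)ᴴ +
          diagonal (Sum.elim (fun _ => 0) (fun w => dd (ty w))) := by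
        rw [conjTranspose_eq_transpose_of_trivial, transpose_fromRows, fromRows_mul,
          fromRows_mul_fromCols, ← fromBlocks_diagonal, fromBlocks_add, M0, D]
        simp
      rw [e]
      refine (Sg_psd.mul_mul_conjTranspose_same _).add (PosSemidef.diagonal ?_)
      rintro (i | w)
      · simp
      · simpa using (dd_pos _).le
    rw [hp.posDef_iff_det_ne_zero]
    intro h
    have := det_conj
    rw [det_mul, det_mul, h] at this
    norm_num at this
  · rintro (i | w)
    · fin_cases i <;> simp [M0, Sg]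
    · exact BSB w
  · rintro (i | w) (j | w') h
    · have h : (i, j) ∈ core ∨ (j, i) ∈ core := h
      fin_cases i <;> fin_cases j <;> first | (exact absurd h (by decide)) | simp [M0, Sg]
    · have := BS w' i h
      have e : (Sg * Bᵀ)ᵀ = B * Sg := by rw [transpose_mul, transpose_transpose, Sg_symm]
      rw [← this, ← e]
      rfl
    · exact BS w j h
    · exact absurd h (fun h => h)

theorem term (M : Matrix (Fin 5 ⊕ W) (Fin 5 ⊕ W) ℝ) (hM : M ∈ feas G (2 / 5))
    (hn : ∀ u v, 0 ≤ M u v) (u v : Fin 5 ⊕ W) :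
    (Fᵀ * F) u v * M v u - (Fᵀ * F) u v * M0 v u ≤
      if u = Sum.inl 3 then (if v = Sum.inl 4 then -(1138681 / 100000000) else 0) else 0 := by
  have key : ∀ c : ℝ, (u = v ∨ G.Adj v u) → (Fᵀ * F) u v * M v u - (Fᵀ * F) u v * M0 v u = 0 := by
    rintro _ (rfl | h)
    · rw [hM.2.1, M0_feas.2.1, sub_self]
    · rw [hM.2.2 _ _ h, M0_feas.2.2 _ _ h, sub_self]
  by_cases h : u = v ∨ G.Adj v u
  · rw [key 0 h]
    split_ifs with h1 h2
    · subst h1 h2
      exact absurd h (by simp only [G]; decide)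
    · rfl
    · rfl
  · rw [KK]
    rcases u with i | w <;> rcases v with j | w'
    · have h1 := hn (Sum.inl 3) (Sum.inl 4)
      have h2 := hn (Sum.inl 4) (Sum.inl 3)
      simp only [fromBlocks_apply₁₁, Matrix.add_apply, BDB, M0]
      fin_cases i <;> fin_cases j <;> first
        | (exact absurd (by simp only [G]; decide) h)
        | (simp [Matrix.mul_apply, Fin.sum_univ_five, Cm, Br, pp, be, dd, Sg]; norm_num; try linarith)
    · have h' : ¬ (i = 2 ∨ i = pp (ty w')) := fun e => h (Or.inr e)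
      simp [Di, B, Br, h']
    · have h' : ¬ (j = 2 ∨ j = pp (ty w)) := fun e => h (Or.inr e)
      simp [Di, B, Br, h']
    · have h' : w ≠ w' := fun e => h (Or.inl (congrArg _ e))
      simp [Di, h']

theorem result :
    ¬ ∀ (V : Type) [Fintype V] [DecidableEq V] (G : SimpleGraph V) (x : ℝ), 0 ≤ x → x < 1 →
      ∀ M ∈ feas G x, (∀ M' ∈ feas G x, M'.det ≤ M.det) → ∀ u v, 0 ≤ M u v := by
  intro h
  obtain ⟨M, hM, hmax⟩ := exists_max G (2 / 5) M0 M0_feas
  have hn := h _ G (2 / 5) (by norm_num) (by norm_num) M hM hmax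
  have h1 : ((Fᵀ * F) * M).trace - ((Fᵀ * F) * M0).trace ≤ -(1138681 / 100000000) := by
    have := Finset.sum_le_sum (s := Finset.univ) fun u _ =>
      Finset.sum_le_sum (s := Finset.univ) fun v _ => term M hM hn u v
    simp only [Finset.sum_ite_irrel, Finset.sum_ite_eq', Finset.mem_univ, if_true,
      Finset.sum_const_zero, Finset.sum_sub_distrib] at this
    exact this
  have h2 := det_lt F M M0 hM.1.posSemidef (by linarith [tr_conj]) det_conj
  exact absurd (hmax M0 M0_feas) (not_le.mpr h2)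

end Pool.Agent.Results.MP_e7c87c_co.Counter
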